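import Pool.Agent.helper52.EU.SpecW

set_option autoImplicit false

open Finset

namespace Pool.Agent.EU

open Pool.Agent.FI Pool.Agent.HK Pool.Agent.BP
open Pool.Agent.CH (nit)

theorem WAC_nit (t v : ℝ) : ‖nit t v‖ = 1 := by
  rw [nit, Complex.norm_exp_ofReal_mul_I]

theorem WAC_lep : 1 ≤ lep ∧ lep ≤ 2 := by
  have h8 : √8 ^ 2 = 8 := Real.sq_sqrt (by norm_num)
  have h0 : 0 ≤ √8 := Real.sqrt_nonneg 8
  have h1 : √8 ≤ 3 := by nlinarith
  have h2 : 2 ≤ √8 := by nlinarith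
  have he1 := Real.exp_one_lt_d9
  have he2 := Real.exp_one_gt_d9
  constructor
  · rw [lep, Real.le_log_iff_exp_le (by linarith)]
    linarith
  · rw [lep, Real.log_le_iff_le_exp (by linarith)]
    have h3 : Real.exp 2 = Real.exp 1 * Real.exp 1 := by rw [← Real.exp_add]; norm_num
    rw [h3]
    nlinarith

theorem WAC_sumnorm (t : ℝ) (S : Finset (ℤ × ℤ)) : ‖∑ z ∈ S, nit t (nn z)‖ ≤ #S := by
  refine (norm_sum_le _ _).trans ?_
  rw [Finset.sum_congr rfl fun z _ => WAC_nit t (nn z)]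
  simp

theorem WAC_FE (M' : ℕ) (z : ℤ × ℤ) (hz : z ∈ FF M') : z ∈ FE M' := by
  unfold FF at hz
  unfold FE Bx
  simp only [Finset.mem_filter, Finset.mem_product, Finset.mem_Icc] at hz ⊢
  obtain ⟨⟨⟨a1, a2⟩, a3, a4⟩, hF, hn⟩ := hz
  refine ⟨⟨⟨?_, ?_⟩, ?_, ?_⟩, hF.2, hn⟩ <;> push_cast <;> assumption

/-- the number of elements in a window -/
theorem WAC_count (C : ℝ) (hC : ∀ (v : ℕ) (c ρ : ℝ), 1 ≤ v → 0 ≤ ρ → (#{z ∈ FE v | |yy z - c| ≤ ρ} : ℝ) ≤ C * (ρ * v + √v))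
    (M' : ℕ) (hM : 1 ≤ M') (S : Finset (ℤ × ℤ)) (c ρ : ℝ) (hρ : 0 ≤ ρ) (hS : ∀ z ∈ S, z ∈ FF M') (hS' : ∀ z ∈ S, |yy z - c| ≤ ρ) :
    (#S : ℝ) ≤ C * (ρ * M' + √M') := by
  refine le_trans ?_ (hC M' c ρ hM hρ)
  refine Nat.cast_le.2 (Finset.card_le_card fun z hz => ?_)
  exact Finset.mem_filter.2 ⟨WAC_FE M' z (hS z hz), hS' z hz⟩

theorem WAC_rho (M M' : ℕ) (t : ℝ) (hM : 1 ≤ M) (h1 : M ≤ M') (h2 : M' ≤ 2 * M) :
    ‖rhoT M M' t‖ ≤ M ∧ ‖rhoT M M' t‖ * |t| ≤ M := by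
  have hM0 : (0 : ℝ) < M := by exact_mod_cast hM
  have hM0' : (0 : ℝ) < M' := by exact_mod_cast (lt_of_lt_of_le hM h1)
  have h2' : (M' : ℝ) ≤ 2 * M := by exact_mod_cast h2
  have h8 : √8 ^ 2 = 8 := Real.sq_sqrt (by norm_num)
  have h8' : 0 ≤ √8 := Real.sqrt_nonneg 8
  have h82 : 2 ≤ √8 := by nlinarith
  have hn1 : ‖((M' : ℝ) : ℂ) ^ (1 + t * Complex.I)‖ = M' := by
    rw [Complex.norm_cpow_eq_rpow_re_of_pos hM0']
    simp
  have hn2 : ‖((M : ℝ) : ℂ) ^ (1 + t * Complex.I)‖ = M := by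
    rw [Complex.norm_cpow_eq_rpow_re_of_pos hM0]
    simp
  have hre : 1 ≤ ‖(1 + t * Complex.I : ℂ)‖ := by
    have := Complex.abs_re_le_norm (1 + t * Complex.I)
    simpa using this
  have him : |t| ≤ ‖(1 + t * Complex.I : ℂ)‖ := by
    have := Complex.abs_im_le_norm (1 + t * Complex.I)
    simpa using this
  have hd : ‖((4 * √8 : ℝ) : ℂ) * (1 + t * Complex.I)‖ = 4 * √8 * ‖(1 + t * Complex.I : ℂ)‖ := by
    rw [norm_mul, Complex.norm_real, Real.norm_of_nonneg (by positivity)]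
  have hnum : ‖((M' : ℝ) : ℂ) ^ (1 + t * Complex.I) - ((M : ℝ) : ℂ) ^ (1 + t * Complex.I)‖ ≤ 3 * M := by
    refine (norm_sub_le _ _).trans ?_
    rw [hn1, hn2]
    linarith
  have hden : 0 < 4 * √8 * ‖(1 + t * Complex.I : ℂ)‖ := by positivity
  have key : ‖rhoT M M' t‖ * (4 * √8 * ‖(1 + t * Complex.I : ℂ)‖) ≤ 3 * M := by
    rw [rhoT, norm_div, hd, div_mul_cancel₀ _ hden.ne']
    exact hnum
  have hr0 : 0 ≤ ‖rhoT M M' t‖ := norm_nonneg _
  have key2 : ‖rhoT M M' t‖ * ‖(1 + t * Complex.I : ℂ)‖ ≤ M := by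
    have h3 : 0 ≤ ‖rhoT M M' t‖ * ‖(1 + t * Complex.I : ℂ)‖ := by positivity
    have h4 : ‖rhoT M M' t‖ * ‖(1 + t * Complex.I : ℂ)‖ * 8 ≤ 3 * M := by
      calc ‖rhoT M M' t‖ * ‖(1 + t * Complex.I : ℂ)‖ * 8 ≤ ‖rhoT M M' t‖ * ‖(1 + t * Complex.I : ℂ)‖ * (4 * √8) :=
            mul_le_mul_of_nonneg_left (by linarith) h3
        _ = ‖rhoT M M' t‖ * (4 * √8 * ‖(1 + t * Complex.I : ℂ)‖) := by ring
        _ ≤ 3 * M := key
    linarith
  exact ⟨le_trans (le_mul_of_one_le_right hr0 hre) key2, le_trans (mul_le_mul_of_nonneg_left him hr0) key2⟩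

theorem WAC_neg (K : ℕ) (f : ℤ → ℝ) : ∑ m ∈ Icc (-(K : ℤ)) K, f m = ∑ m ∈ Icc (-(K : ℤ)) K, f (-m) := by
  refine Finset.sum_nbij' (fun m => -m) (fun m => -m) ?_ ?_ ?_ ?_ ?_
  · intro m hm
    rw [Finset.mem_Icc] at hm ⊢
    omega
  · intro m hm
    rw [Finset.mem_Icc] at hm ⊢
    omega
  · intro m _; simp
  · intro m _; simp
  · intro m _; simp

/-- the integral of a function bounded by `A` outside three intervals -/
theorem WAC_int (f : ℝ → ℝ) (a b A B : ℝ) (c d : Fin 3 → ℝ) (hab : a ≤ b) (hB : 0 ≤ B) (hcd : ∀ i, c i ≤ d i)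
    (hf0 : ∀ u, 0 ≤ f u) (hf1 : ∀ u, a ≤ u → u ≤ b → f u ≤ B)
    (hf2 : ∀ u, a ≤ u → u ≤ b → (∀ i, u < c i ∨ d i < u) → f u ≤ A) (hA : 0 ≤ A) :
    ∫ u in a..b, f u ≤ A * (b - a) + B * ∑ i, (d i - c i) := by
  rw [intervalIntegral.integral_of_le hab]
  have hint : ∀ i : Fin 3, MeasureTheory.Integrable ((Set.Icc (c i) (d i)).indicator fun _ : ℝ => B)
      (MeasureTheory.volume.restrict (Set.Ioc a b)) := fun i =>
    (MeasureTheory.integrable_const B).indicator measurableSet_Icc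
  have hintA : MeasureTheory.Integrable (fun _ : ℝ => A) (MeasureTheory.volume.restrict (Set.Ioc a b)) :=
    MeasureTheory.integrable_const A
  have h1 : ∫ u in Set.Ioc a b, f u ≤ ∫ u in Set.Ioc a b, (A + ∑ i, (Set.Icc (c i) (d i)).indicator (fun _ : ℝ => B) u) := by
    refine MeasureTheory.integral_mono_of_nonneg (Filter.Eventually.of_forall hf0) ?_ ?_
    · exact hintA.add (MeasureTheory.integrable_finsetSum _ fun i _ => hint i)
    · refine (MeasureTheory.ae_restrict_iff' measurableSet_Ioc).2 (Filter.Eventually.of_forall fun u hu => ?_)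
      have hind0 : ∀ i, 0 ≤ (Set.Icc (c i) (d i)).indicator (fun _ : ℝ => B) u := fun i =>
        Set.indicator_nonneg (fun _ _ => hB) u
      by_cases hu2 : ∀ i, u < c i ∨ d i < u
      · have := hf2 u hu.1.le hu.2 hu2
        have h2 : 0 ≤ ∑ i, (Set.Icc (c i) (d i)).indicator (fun _ : ℝ => B) u := Finset.sum_nonneg fun i _ => hind0 i
        show f u ≤ A + ∑ i, (Set.Icc (c i) (d i)).indicator (fun _ : ℝ => B) u
        linarith
      · push Not at hu2
        obtain ⟨i, hi1, hi2⟩ := hu2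
        have h2 : (Set.Icc (c i) (d i)).indicator (fun _ : ℝ => B) u ≤ ∑ i, (Set.Icc (c i) (d i)).indicator (fun _ : ℝ => B) u :=
          Finset.single_le_sum (f := fun i => (Set.Icc (c i) (d i)).indicator (fun _ : ℝ => B) u) (fun i _ => hind0 i) (Finset.mem_univ i)
        rw [Set.indicator_of_mem (show u ∈ Set.Icc (c i) (d i) from ⟨hi1, hi2⟩)] at h2
        have := hf1 u hu.1.le hu.2
        show f u ≤ A + ∑ i, (Set.Icc (c i) (d i)).indicator (fun _ : ℝ => B) u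
        linarith
  refine h1.trans ?_
  rw [MeasureTheory.integral_add hintA (MeasureTheory.integrable_finsetSum _ fun i _ => hint i),
    MeasureTheory.integral_finsetSum _ fun i _ => hint i]
  have h3 : ∫ _ in Set.Ioc a b, A = A * (b - a) := by
    rw [MeasureTheory.setIntegral_const, Real.volume_real_Ioc_of_le hab, smul_eq_mul, mul_comm]
  have h4 : ∀ i : Fin 3, ∫ u in Set.Ioc a b, (Set.Icc (c i) (d i)).indicator (fun _ : ℝ => B) u ≤ B * (d i - c i) := by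
    intro i
    rw [MeasureTheory.integral_indicator_const _ measurableSet_Icc, smul_eq_mul, mul_comm]
    refine mul_le_mul_of_nonneg_left ?_ hB
    rw [← Real.volume_real_Icc_of_le (hcd i), MeasureTheory.measureReal_restrict_apply measurableSet_Icc]
    exact MeasureTheory.measureReal_mono Set.inter_subset_left (by simp)
  rw [h3, Finset.mul_sum]
  exact add_le_add le_rfl (Finset.sum_le_sum fun i _ => h4 i)

theorem WAC_fr (α : ℝ) (m : ℤ) : fr α (-m) = -fr (-α) m := by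
  rw [fr, fr]
  push_cast
  ring

theorem WAC_E0 (m : ℤ) (hm : m ≠ 0) :
    ∫ u in (-lep)..lep, Complex.exp (-((fr 0 m * u : ℝ) : ℂ) * Complex.I) = 0 := by
  have hl : lep ≠ 0 := by have := WAC_lep.1; linarith
  have hm' : (m : ℝ) ≠ 0 := by exact_mod_cast hm
  have hf : fr 0 m * lep = Real.pi * m := by
    rw [fr]
    field_simp
    ring
  have hf0 : fr 0 m ≠ 0 := by
    intro h0
    rw [h0, zero_mul] at hf
    exact mul_ne_zero Real.pi_ne_zero hm' hf.symm
  have hc : (-(fr 0 m : ℂ) * Complex.I) ≠ 0 := mul_ne_zero (neg_ne_zero.2 (by exact_mod_cast hf0)) Complex.I_ne_zero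
  have h1 : (fun u : ℝ => Complex.exp (-((fr 0 m * u : ℝ) : ℂ) * Complex.I)) = fun u : ℝ => Complex.exp ((-(fr 0 m : ℂ) * Complex.I) * u) := by
    funext u
    refine congrArg Complex.exp ?_
    push_cast
    ring
  rw [h1, integral_exp_mul_complex hc]
  have hfc : (fr 0 m : ℂ) * (lep : ℂ) = (Real.pi : ℂ) * (m : ℂ) := by exact_mod_cast hf
  have h2 : (-(fr 0 m : ℂ) * Complex.I) * ((lep : ℝ) : ℂ) = (-(fr 0 m : ℂ) * Complex.I) * ((-lep : ℝ) : ℂ) + ((-m : ℤ) : ℂ) * (2 * Real.pi * Complex.I) := by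
    push_cast
    linear_combination (-2 * Complex.I) * hfc
  rw [h2, Complex.exp_eq_exp_iff_exists_int.2 ⟨-m, rfl⟩, sub_self, zero_div]

open scoped Classical in
theorem WAC_abs (hWBE : WBE_stmt) (P : Finset (ℤ × ℤ)) (b : ℤ × ℤ → ℂ) (h w : ℝ) (ρ : ℂ) (α : ℝ) (K : ℕ) (A0 B0 : ℝ)
    (hh : 0 < h) (hh1 : 2 * h ≤ 1) (hw : 0 ≤ w)
    (hY : ∀ z ∈ P, |yy z| ≤ lep)
    (hcount : ∀ S : Finset (ℤ × ℤ), S ⊆ P → ∀ c0 : ℝ, (∀ z ∈ S, |yy z - c0| ≤ h) → ‖∑ z ∈ S, b z‖ ≤ B0)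
    (hρ : ‖ρ‖ ≤ B0)
    (hgood : ∀ u, -lep + h ≤ u → u ≤ lep - h → (u < -w ∨ w < u) →
      ‖∑ z ∈ P with (u < yy z ∧ yy z ≤ u + h), b z - ρ‖ ≤ A0)
    (hJ : ∀ m ∈ Icc (-(K : ℤ)) K, |fr (-α) m| * h ≤ Real.pi) :
    ∑ m ∈ Icc (-(K : ℤ)) K, ‖∑ z ∈ P, Complex.exp (((fr α m * yy z : ℝ) : ℂ) * Complex.I) * b z -
      ρ * (∫ u in (-lep)..lep, Complex.exp (-((fr (-α) (-m) * u : ℝ) : ℂ) * Complex.I)) /
        (∫ u in (0 : ℝ)..h, Complex.exp (((fr (-α) (-m) * u : ℝ) : ℂ) * Complex.I))‖ ^ 2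
    ≤ 2 * (Real.pi / (2 * h)) ^ 2 * (2 * lep * (A0 ^ 2 * (2 * lep) + (2 * B0) ^ 2 * (2 * h + 2 * w)) +
        2 * lep * (B0 ^ 2 * (2 * h))) := by
  have hlep := WAC_lep
  have hB : 0 ≤ B0 := le_trans (norm_nonneg _) hρ
  obtain ⟨hW1, hW2, hW3⟩ := hWBE
  -- the two parts
  have hPin := hW1 (ℤ × ℤ) (P.filter fun z => -lep + h ≤ yy z) yy b h ρ (-α) (Icc (-(K : ℤ)) K) hh
    (fun z hz => ⟨(Finset.mem_filter.1 hz).2, (abs_le.1 (hY z (Finset.mem_filter.1 hz).1)).2⟩)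
  have hPed := hW2 (ℤ × ℤ) (P.filter fun z => ¬ -lep + h ≤ yy z) yy b h (-α) (Icc (-(K : ℤ)) K) hh
    (fun z hz => ⟨(abs_le.1 (hY z (Finset.mem_filter.1 hz).1)).1, by
      have := (Finset.mem_filter.1 hz).2
      push Not at this
      linarith⟩)
  -- integrals
  have hI1 : ∫ u in (-lep)..lep, ‖∑ p ∈ P.filter (fun z => -lep + h ≤ yy z) with (u < yy p ∧ yy p ≤ u + h), b p - ρ‖ ^ 2 ≤
      A0 ^ 2 * (2 * lep) + (2 * B0) ^ 2 * (2 * h + 2 * w) := by
    have := WAC_int (fun u => ‖∑ p ∈ P.filter (fun z => -lep + h ≤ yy z) with (u < yy p ∧ yy p ≤ u + h), b p - ρ‖ ^ 2)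
      (-lep) lep (A0 ^ 2) ((2 * B0) ^ 2) ![-lep, lep - h, -w] ![-lep + h, lep, w] (by linarith) (by positivity)
      (by
        intro i
        fin_cases i
        · show -lep ≤ -lep + h; linarith
        · show lep - h ≤ lep; linarith
        · show -w ≤ w; linarith)
      (fun u => by positivity)
      (by
        intro u _ _
        refine pow_le_pow_left₀ (norm_nonneg _) ?_ 2
        refine (norm_sub_le _ _).trans ?_
        have h1 := hcount ((P.filter (fun z => -lep + h ≤ yy z)).filter fun p => u < yy p ∧ yy p ≤ u + h)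
          ((Finset.filter_subset _ _).trans (Finset.filter_subset _ _)) (u + h) (by
            intro z hz
            have hz2 := (Finset.mem_filter.1 hz).2
            rw [abs_le]
            constructor <;> linarith [hz2.1, hz2.2])
        linarith)
      (by
        intro u hu1 hu2 hu3
        refine pow_le_pow_left₀ (norm_nonneg _) ?_ 2
        have e0 := hu3 0
        have e1 := hu3 1
        have e2 := hu3 2
        have e0' : -lep + h < u := by
          rcases e0 with h' | h'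
          · exact absurd hu1 (not_le.2 h')
          · exact h'
        have e1' : u < lep - h := by
          rcases e1 with h' | h'
          · exact h'
          · exact absurd hu2 (not_le.2 h')
        have e2' : u < -w ∨ w < u := e2
        have h1 := hgood u e0'.le e1'.le e2'
        have h2 : ((P.filter (fun z => -lep + h ≤ yy z)).filter fun p => u < yy p ∧ yy p ≤ u + h) =
            P.filter fun p => u < yy p ∧ yy p ≤ u + h := by
          ext z
          simp only [Finset.mem_filter]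
          constructor
          · rintro ⟨⟨a1, _⟩, a3⟩; exact ⟨a1, a3⟩
          · rintro ⟨a1, a3⟩; exact ⟨⟨a1, by linarith [a3.1]⟩, a3⟩
        rw [h2]
        exact h1) (by positivity)
    refine this.trans (le_of_eq ?_)
    rw [Fin.sum_univ_three]
    show A0 ^ 2 * (lep - -lep) + (2 * B0) ^ 2 * ((-lep + h - -lep) + (lep - (lep - h)) + (w - -w)) = _
    ring
  have hI2 : ∫ u in (-lep)..lep, ‖∑ p ∈ P.filter (fun z => ¬ -lep + h ≤ yy z) with (yy p ≤ u ∧ u < yy p + h), b p‖ ^ 2 ≤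
      B0 ^ 2 * (2 * h) := by
    have := WAC_int (fun u => ‖∑ p ∈ P.filter (fun z => ¬ -lep + h ≤ yy z) with (yy p ≤ u ∧ u < yy p + h), b p‖ ^ 2)
      (-lep) lep 0 (B0 ^ 2) ![-lep, -lep, -lep] ![-lep + 2 * h, -lep, -lep] (by linarith) (by positivity)
      (by
        intro i
        fin_cases i
        · show -lep ≤ -lep + 2 * h; linarith
        · show -lep ≤ -lep; exact le_rfl
        · show -lep ≤ -lep; exact le_rfl)
      (fun u => by positivity)
      (by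
        intro u _ _
        refine pow_le_pow_left₀ (norm_nonneg _) ?_ 2
        exact hcount ((P.filter (fun z => ¬ -lep + h ≤ yy z)).filter fun p => yy p ≤ u ∧ u < yy p + h)
          ((Finset.filter_subset _ _).trans (Finset.filter_subset _ _)) u (by
            intro z hz
            have hz2 := (Finset.mem_filter.1 hz).2
            rw [abs_le]
            constructor <;> linarith [hz2.1, hz2.2]))
      (by
        intro u hu1 hu2 hu3
        have e0 := hu3 0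
        have e0' : -lep + 2 * h < u := by
          rcases e0 with h' | h'
          · exact absurd hu1 (not_le.2 h')
          · exact h'
        have h2 : ((P.filter (fun z => ¬ -lep + h ≤ yy z)).filter fun p => yy p ≤ u ∧ u < yy p + h) = ∅ := by
          rw [Finset.eq_empty_iff_forall_notMem]
          intro z hz
          have hz1 := (Finset.mem_filter.1 (Finset.mem_filter.1 hz).1).2
          have hz2 := (Finset.mem_filter.1 hz).2
          push Not at hz1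
          linarith [hz2.2]
        rw [h2]
        simp) le_rfl
    refine this.trans (le_of_eq ?_)
    rw [Fin.sum_univ_three]
    show 0 * (lep - -lep) + B0 ^ 2 * ((-lep + 2 * h - -lep) + (-lep - -lep) + (-lep - -lep)) = _
    ring
  -- pointwise
  have hpt : ∀ m ∈ Icc (-(K : ℤ)) K, ‖∑ z ∈ P, Complex.exp (((fr α (-m) * yy z : ℝ) : ℂ) * Complex.I) * b z -
      ρ * (∫ u in (-lep)..lep, Complex.exp (-((fr (-α) (- -m) * u : ℝ) : ℂ) * Complex.I)) /
        (∫ u in (0 : ℝ)..h, Complex.exp (((fr (-α) (- -m) * u : ℝ) : ℂ) * Complex.I))‖ ^ 2 ≤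
      2 * (Real.pi / (2 * h)) ^ 2 * (‖(∑ p ∈ P.filter (fun z => -lep + h ≤ yy z), b p * Complex.exp (-((fr (-α) m * yy p : ℝ) : ℂ) * Complex.I)) *
        (∫ u in (0 : ℝ)..h, Complex.exp (((fr (-α) m * u : ℝ) : ℂ) * Complex.I)) -
        ρ * ∫ u in (-lep)..lep, Complex.exp (-((fr (-α) m * u : ℝ) : ℂ) * Complex.I)‖ ^ 2 +
      ‖(∑ p ∈ P.filter (fun z => ¬ -lep + h ≤ yy z), b p * Complex.exp (-((fr (-α) m * yy p : ℝ) : ℂ) * Complex.I)) *
        (∫ u in (0 : ℝ)..h, Complex.exp (-((fr (-α) m * u : ℝ) : ℂ) * Complex.I))‖ ^ 2) := by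
    intro m hm
    rw [neg_neg]
    have hJm := hW3 (fr (-α) m) h hh (hJ m hm)
    have hs : ∑ z ∈ P, Complex.exp (((fr α (-m) * yy z : ℝ) : ℂ) * Complex.I) * b z =
        ∑ p ∈ P.filter (fun z => -lep + h ≤ yy z), b p * Complex.exp (-((fr (-α) m * yy p : ℝ) : ℂ) * Complex.I) +
        ∑ p ∈ P.filter (fun z => ¬ -lep + h ≤ yy z), b p * Complex.exp (-((fr (-α) m * yy p : ℝ) : ℂ) * Complex.I) := by
      rw [Finset.sum_filter_add_sum_filter_not]
      refine Finset.sum_congr rfl fun z _ => ?_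
      rw [WAC_fr, mul_comm (b z)]
      refine congrArg (· * b z) (congrArg Complex.exp ?_)
      push_cast
      ring
    rw [hs]
    generalize (∑ p ∈ P.filter (fun z => -lep + h ≤ yy z), b p * Complex.exp (-((fr (-α) m * yy p : ℝ) : ℂ) * Complex.I)) = a
    generalize (∑ p ∈ P.filter (fun z => ¬ -lep + h ≤ yy z), b p * Complex.exp (-((fr (-α) m * yy p : ℝ) : ℂ) * Complex.I)) = e
    generalize (∫ u in (-lep)..lep, Complex.exp (-((fr (-α) m * u : ℝ) : ℂ) * Complex.I)) = E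
    obtain ⟨hJ1, hJ2⟩ := hJm
    generalize (∫ u in (0 : ℝ)..h, Complex.exp (((fr (-α) m * u : ℝ) : ℂ) * Complex.I)) = J at hJ1 ⊢
    generalize (∫ u in (0 : ℝ)..h, Complex.exp (-((fr (-α) m * u : ℝ) : ℂ) * Complex.I)) = J' at hJ2 ⊢
    have hpi : 0 < Real.pi := Real.pi_pos
    have hlow : 0 < 2 / Real.pi * h := by positivity
    have hJ0 : J ≠ 0 := by
      intro h0
      rw [h0, norm_zero] at hJ1
      linarith
    have hk : Real.pi / (2 * h) * (2 / Real.pi * h) = 1 := by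
      field_simp
    have hk0 : 0 ≤ Real.pi / (2 * h) := by positivity
    -- first part
    have b1 : ‖a - ρ * E / J‖ ≤ Real.pi / (2 * h) * ‖a * J - ρ * E‖ := by
      have h1 : a * J - ρ * E = (a - ρ * E / J) * J := by
        field_simp
      rw [h1, norm_mul]
      calc ‖a - ρ * E / J‖ = Real.pi / (2 * h) * (‖a - ρ * E / J‖ * (2 / Real.pi * h)) := by
            rw [mul_left_comm, hk, mul_one]
        _ ≤ Real.pi / (2 * h) * (‖a - ρ * E / J‖ * ‖J‖) :=
            mul_le_mul_of_nonneg_left (mul_le_mul_of_nonneg_left hJ1 (norm_nonneg _)) hk0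
    have b2 : ‖e‖ ≤ Real.pi / (2 * h) * ‖e * J'‖ := by
      rw [norm_mul]
      calc ‖e‖ = Real.pi / (2 * h) * (‖e‖ * (2 / Real.pi * h)) := by
            rw [mul_left_comm, hk, mul_one]
        _ ≤ Real.pi / (2 * h) * (‖e‖ * ‖J'‖) :=
            mul_le_mul_of_nonneg_left (mul_le_mul_of_nonneg_left hJ2 (norm_nonneg _)) hk0
    have b3 : ‖a + e - ρ * E / J‖ ≤ Real.pi / (2 * h) * ‖a * J - ρ * E‖ + Real.pi / (2 * h) * ‖e * J'‖ := by
      have h1 : a + e - ρ * E / J = (a - ρ * E / J) + e := by ring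
      rw [h1]
      exact (norm_add_le _ _).trans (add_le_add b1 b2)
    have b4 := pow_le_pow_left₀ (norm_nonneg _) b3 2
    have b5 : (Real.pi / (2 * h) * ‖a * J - ρ * E‖ + Real.pi / (2 * h) * ‖e * J'‖) ^ 2 ≤
        2 * (Real.pi / (2 * h)) ^ 2 * (‖a * J - ρ * E‖ ^ 2 + ‖e * J'‖ ^ 2) := by
      have := sq_nonneg (Real.pi / (2 * h) * ‖a * J - ρ * E‖ - Real.pi / (2 * h) * ‖e * J'‖)
      nlinarith
    exact b4.trans b5
  rw [WAC_neg]
  refine (Finset.sum_le_sum hpt).trans ?_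
  rw [← Finset.mul_sum, Finset.sum_add_distrib]
  refine mul_le_mul_of_nonneg_left (add_le_add (hPin.trans ?_) (hPed.trans ?_)) (by positivity)
  · exact mul_le_mul_of_nonneg_left hI1 (by linarith)
  · exact mul_le_mul_of_nonneg_left hI2 (by linarith)

/-- the numerical estimate at the end -/
theorem WAC_num (M h e a b w : ℝ) (hh : 0 < h) (he0 : 0 < e) (hhe : h ≤ e ^ 2) (hw : w = e ^ 2 + h)
    (hD : (80 * a ^ 2 + 520 * b ^ 2) * e ≤ 1) :
    2 * (Real.pi / (2 * h)) ^ 2 * (2 * lep * ((a * (M * h * e)) ^ 2 * (2 * lep) + (2 * (b * (M * h))) ^ 2 * (2 * h + 2 * w)) +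
      2 * lep * ((b * (M * h)) ^ 2 * (2 * h))) ≤ M ^ 2 * e := by
  have hlep := WAC_lep
  have hpi : Real.pi ^ 2 ≤ 10 := by
    have := Real.pi_lt_d2
    have := Real.pi_pos
    nlinarith
  have h1 : (a * (M * h * e)) ^ 2 * (2 * lep) ≤ 4 * (a * (M * h * e)) ^ 2 := by
    have := sq_nonneg (a * (M * h * e))
    nlinarith [hlep.2]
  have h2 : 2 * h + 2 * w ≤ 6 * e ^ 2 := by rw [hw]; linarith
  have h3 : (2 * (b * (M * h))) ^ 2 * (2 * h + 2 * w) ≤ 24 * (b * (M * h)) ^ 2 * e ^ 2 := by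
    calc (2 * (b * (M * h))) ^ 2 * (2 * h + 2 * w) ≤ (2 * (b * (M * h))) ^ 2 * (6 * e ^ 2) :=
          mul_le_mul_of_nonneg_left h2 (by positivity)
      _ = 24 * (b * (M * h)) ^ 2 * e ^ 2 := by ring
  have h4 : (b * (M * h)) ^ 2 * (2 * h) ≤ 2 * (b * (M * h)) ^ 2 * e ^ 2 := by
    have := sq_nonneg (b * (M * h))
    nlinarith
  have h5 : 0 ≤ (a * (M * h * e)) ^ 2 * (2 * lep) + (2 * (b * (M * h))) ^ 2 * (2 * h + 2 * w) := by
    have : 0 ≤ 2 * h + 2 * w := by rw [hw]; positivity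
    have := hlep.1
    positivity
  have h6 : 2 * lep * ((a * (M * h * e)) ^ 2 * (2 * lep) + (2 * (b * (M * h))) ^ 2 * (2 * h + 2 * w)) ≤
      4 * (4 * (a * (M * h * e)) ^ 2 + 24 * (b * (M * h)) ^ 2 * e ^ 2) := by
    calc 2 * lep * ((a * (M * h * e)) ^ 2 * (2 * lep) + (2 * (b * (M * h))) ^ 2 * (2 * h + 2 * w)) ≤
        4 * ((a * (M * h * e)) ^ 2 * (2 * lep) + (2 * (b * (M * h))) ^ 2 * (2 * h + 2 * w)) :=
          mul_le_mul_of_nonneg_right (by linarith [hlep.2]) h5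
      _ ≤ _ := by linarith
  have h7 : 2 * lep * ((b * (M * h)) ^ 2 * (2 * h)) ≤ 4 * (2 * (b * (M * h)) ^ 2 * e ^ 2) := by
    have h8 : 0 ≤ (b * (M * h)) ^ 2 * (2 * h) := by positivity
    calc 2 * lep * ((b * (M * h)) ^ 2 * (2 * h)) ≤ 4 * ((b * (M * h)) ^ 2 * (2 * h)) :=
          mul_le_mul_of_nonneg_right (by linarith [hlep.2]) h8
      _ ≤ _ := by linarith
  have h8 : 2 * lep * ((a * (M * h * e)) ^ 2 * (2 * lep) + (2 * (b * (M * h))) ^ 2 * (2 * h + 2 * w)) +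
      2 * lep * ((b * (M * h)) ^ 2 * (2 * h)) ≤ (16 * a ^ 2 + 104 * b ^ 2) * M ^ 2 * e ^ 2 * h ^ 2 := by
    refine (add_le_add h6 h7).trans (le_of_eq ?_)
    ring
  have h9 : 2 * (Real.pi / (2 * h)) ^ 2 ≤ 5 / h ^ 2 := by
    rw [div_pow, mul_pow]
    rw [← mul_div_assoc, div_le_div_iff₀ (by positivity) (by positivity)]
    have : 0 ≤ h ^ 2 := by positivity
    nlinarith
  calc 2 * (Real.pi / (2 * h)) ^ 2 * (2 * lep * ((a * (M * h * e)) ^ 2 * (2 * lep) + (2 * (b * (M * h))) ^ 2 * (2 * h + 2 * w)) +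
      2 * lep * ((b * (M * h)) ^ 2 * (2 * h))) ≤
        5 / h ^ 2 * ((16 * a ^ 2 + 104 * b ^ 2) * M ^ 2 * e ^ 2 * h ^ 2) := by
        refine mul_le_mul h9 h8 ?_ (by positivity)
        have : 0 ≤ 2 * h + 2 * w := by rw [hw]; positivity
        have := hlep.1
        positivity
    _ = M ^ 2 * e * ((80 * a ^ 2 + 520 * b ^ 2) * e) := by
        field_simp
        ring
    _ ≤ M ^ 2 * e * 1 := mul_le_mul_of_nonneg_left hD (by positivity)
    _ = M ^ 2 * e := mul_one _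

open scoped Classical in
theorem WAC (hWLT : WLT_stmt) (hWST : WST_stmt) (hWBE : WBE_stmt) (hSCW : SCW_stmt) (hYYB : YYB_stmt) : WAC_stmt := by
  intro η hη hη1
  obtain ⟨CS, hCS, hcnt⟩ := hSCW
  obtain ⟨CW, hCW, hst⟩ := hWST
  obtain ⟨x₁, hlt⟩ := hWLT (9 * η / 10) (by linarith) (by linarith)
  obtain ⟨x₂, hx₂⟩ := Filter.eventually_atTop.1 (((tendsto_rpow_atTop (show 0 < 9 * η / 10 / 400 by linarith)).comp
    tendsto_natCast_atTop_atTop).eventually_ge_atTop (80 * (3 * CW + 2) ^ 2 + 520 * (4 * CS + 1) ^ 2))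
  refine ⟨9 * η / 10 / 400, by linarith, max (max x₁ x₂) 1, fun x hx => ?_⟩
  have hx1 : x₁ ≤ x := le_trans (le_trans (le_max_left _ _) (le_max_left _ _)) hx
  have hx2 : x₂ ≤ x := le_trans (le_trans (le_max_right _ _) (le_max_left _ _)) hx
  have hx3 : 1 ≤ x := le_trans (le_max_right _ _) hx
  intro K M M' q sg t α hsg hK hM hMM hMM2 hq2 hq1 hq ht hα0 hα1
  have hX1 : (1 : ℝ) ≤ x := by exact_mod_cast hx3
  have hX0 : (0 : ℝ) < x := by linarith
  have hlarge : 80 * (3 * CW + 2) ^ 2 + 520 * (4 * CS + 1) ^ 2 ≤ (x : ℝ) ^ (9 * η / 10 / 400) := hx₂ x hx2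
  have hlep := WAC_lep
  -- `ε`
  obtain ⟨e, he⟩ : ∃ e : ℝ, e = (x : ℝ) ^ (-(9 * η / 10 / 400)) := ⟨_, rfl⟩
  have he0 : 0 < e := by rw [he]; positivity
  have he2 : e ^ 2 = (x : ℝ) ^ (-(9 * η / 10 / 200)) := by
    rw [he, ← Real.rpow_natCast, ← Real.rpow_mul hX0.le]
    refine congrArg _ ?_
    push_cast
    ring
  have hD : (80 * (3 * CW + 2) ^ 2 + 520 * (4 * CS + 1) ^ 2) * e ≤ 1 := by
    calc (80 * (3 * CW + 2) ^ 2 + 520 * (4 * CS + 1) ^ 2) * e ≤ (x : ℝ) ^ (9 * η / 10 / 400) * e :=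
          mul_le_mul_of_nonneg_right hlarge he0.le
      _ = 1 := by rw [he, ← Real.rpow_add hX0, add_neg_cancel, Real.rpow_zero]
  have h16 : (16 : ℝ) ≤ (x : ℝ) ^ (η / 20) := by
    have h1 : (16 : ℝ) ≤ 80 * (3 * CW + 2) ^ 2 + 520 * (4 * CS + 1) ^ 2 := by
      have h2 : (2 : ℝ) ^ 2 ≤ (3 * CW + 2) ^ 2 := pow_le_pow_left₀ (by norm_num) (by linarith) 2
      linarith [sq_nonneg (4 * CS + 1)]
    exact h1.trans (hlarge.trans (Real.rpow_le_rpow_of_exponent_le hX1 (by linarith)))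
  -- `K₂`, `h`
  obtain ⟨K₂, hK₂⟩ : ∃ K₂ : ℕ, K₂ = max K ⌈(x : ℝ) ^ (η / 40)⌉₊ := ⟨_, rfl⟩
  have hKK : K ≤ K₂ := by rw [hK₂]; exact le_max_left _ _
  have hKK' : (K : ℝ) ≤ K₂ := by exact_mod_cast hKK
  have hK1 : (1 : ℝ) ≤ K := by exact_mod_cast hK
  have hK20 : (1 : ℝ) ≤ K₂ := hK1.trans hKK'
  have hxη : 1 ≤ (x : ℝ) ^ (η / 40) := Real.one_le_rpow hX1 (by linarith)
  have hK2low : (x : ℝ) ^ (η / 40) ≤ K₂ := by
    rw [hK₂]
    exact (Nat.le_ceil _).trans (by exact_mod_cast le_max_right _ _)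
  have hK2up : (K₂ : ℝ) ≤ K * (2 * (x : ℝ) ^ (η / 40)) := by
    have h1 : (⌈(x : ℝ) ^ (η / 40)⌉₊ : ℝ) ≤ 2 * (x : ℝ) ^ (η / 40) := by
      have := (Nat.ceil_lt_add_one (show 0 ≤ (x : ℝ) ^ (η / 40) by positivity)).le
      linarith
    rw [hK₂, Nat.cast_max]
    refine max_le ?_ ?_
    · exact le_mul_of_one_le_right (by linarith) (by linarith)
    · exact h1.trans (le_mul_of_one_le_left (by positivity) hK1)
  obtain ⟨h, hh⟩ : ∃ h : ℝ, h = 1 / (2 * K₂) := ⟨_, rfl⟩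
  have hh0 : 0 < h := by rw [hh]; positivity
  have hhK : h * (2 * K₂) = 1 := by rw [hh]; field_simp
  have hh1 : 2 * h ≤ 1 := by
    have := mul_le_mul_of_nonneg_left hK20 (by positivity : (0 : ℝ) ≤ 2 * h)
    linarith
  have hhe : h ≤ e ^ 2 := by
    have h1 : h * (x : ℝ) ^ (η / 40) ≤ 1 := by
      calc h * (x : ℝ) ^ (η / 40) ≤ h * (2 * K₂) := mul_le_mul_of_nonneg_left (by linarith) hh0.le
        _ = 1 := hhK
    have h2 : h ≤ (x : ℝ) ^ (-(η / 40)) := by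
      rw [Real.rpow_neg hX0.le, ← one_div, le_div_iff₀ (by positivity)]
      exact h1
    rw [he2]
    exact h2.trans (Real.rpow_le_rpow_of_exponent_le hX1 (by linarith))
  -- sizes
  have hM0 : (1 : ℝ) ≤ M := by
    refine le_trans ?_ hM
    exact one_le_mul_of_one_le_of_one_le (one_le_pow₀ hK1) (Real.one_le_rpow hX1 hη.le)
  have hMpos : (0 : ℝ) < M := by linarith
  have hMnat : 1 ≤ M := by exact_mod_cast hM0
  have hM'nat : 1 ≤ M' := hMnat.trans hMM
  have hMh2 : (x : ℝ) ^ (9 * η / 10) ≤ M * h ^ 2 := by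
    have h1 : h ^ 2 * (4 * (K₂ : ℝ) ^ 2) = 1 := by
      have : h ^ 2 * (4 * (K₂ : ℝ) ^ 2) = (h * (2 * K₂)) ^ 2 := by ring
      rw [this, hhK, one_pow]
    have h2 : 4 * (K₂ : ℝ) ^ 2 * (x : ℝ) ^ (9 * η / 10) ≤ M := by
      have h3 : (K₂ : ℝ) ^ 2 ≤ (K * (2 * (x : ℝ) ^ (η / 40))) ^ 2 := pow_le_pow_left₀ (by positivity) hK2up 2
      have h4 : ((x : ℝ) ^ (η / 40)) ^ 2 = (x : ℝ) ^ (η / 20) := by
        rw [← Real.rpow_natCast, ← Real.rpow_mul hX0.le]
        refine congrArg _ ?_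
        push_cast
        ring
      have h5 : (x : ℝ) ^ (η / 20) * (x : ℝ) ^ (η / 20) * (x : ℝ) ^ (9 * η / 10) = (x : ℝ) ^ η := by
        rw [← Real.rpow_add hX0, ← Real.rpow_add hX0]
        refine congrArg _ ?_
        ring
      calc 4 * (K₂ : ℝ) ^ 2 * (x : ℝ) ^ (9 * η / 10) ≤ 4 * (K * (2 * (x : ℝ) ^ (η / 40))) ^ 2 * (x : ℝ) ^ (9 * η / 10) :=
            mul_le_mul_of_nonneg_right (by linarith) (by positivity)
        _ = (K : ℝ) ^ 2 * (16 * ((x : ℝ) ^ (η / 40)) ^ 2 * (x : ℝ) ^ (9 * η / 10)) := by ring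
        _ = (K : ℝ) ^ 2 * (16 * ((x : ℝ) ^ (η / 20) * (x : ℝ) ^ (9 * η / 10))) := by rw [h4]; ring
        _ ≤ (K : ℝ) ^ 2 * ((x : ℝ) ^ (η / 20) * ((x : ℝ) ^ (η / 20) * (x : ℝ) ^ (9 * η / 10))) := by
            refine mul_le_mul_of_nonneg_left (mul_le_mul_of_nonneg_right h16 (by positivity)) (by positivity)
        _ = (K : ℝ) ^ 2 * (x : ℝ) ^ η := by rw [← h5]; ring
        _ ≤ M := hM
    calc (x : ℝ) ^ (9 * η / 10) = h ^ 2 * (4 * (K₂ : ℝ) ^ 2) * (x : ℝ) ^ (9 * η / 10) := by rw [h1, one_mul]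
      _ = h ^ 2 * (4 * (K₂ : ℝ) ^ 2 * (x : ℝ) ^ (9 * η / 10)) := by ring
      _ ≤ h ^ 2 * M := mul_le_mul_of_nonneg_left h2 (by positivity)
      _ = M * h ^ 2 := mul_comm _ _
  -- `√M x^(η'/2) ≤ M h`
  have hsM : √(M : ℝ) * (x : ℝ) ^ (9 * η / 20) ≤ M * h := by
    have h1 : (x : ℝ) ^ (9 * η / 20) ≤ √(M : ℝ) * h := by
      have h2 : ((x : ℝ) ^ (9 * η / 20)) ^ 2 ≤ (√(M : ℝ) * h) ^ 2 := by
        rw [mul_pow, Real.sq_sqrt hMpos.le, ← Real.rpow_natCast, ← Real.rpow_mul hX0.le]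
        refine le_trans (le_of_eq (congrArg _ ?_)) hMh2
        push_cast
        ring
      exact (pow_le_pow_iff_left₀ (by positivity) (by positivity) two_ne_zero).1 h2
    calc √(M : ℝ) * (x : ℝ) ^ (9 * η / 20) ≤ √(M : ℝ) * (√(M : ℝ) * h) := mul_le_mul_of_nonneg_left h1 (by positivity)
      _ = (√(M : ℝ) * √(M : ℝ)) * h := by ring
      _ = M * h := by rw [Real.mul_self_sqrt hMpos.le]
  have hsM1 : √(M : ℝ) ≤ M * h := by
    refine le_trans ?_ hsM
    exact le_mul_of_one_le_right (Real.sqrt_nonneg _) (Real.one_le_rpow hX1 (by linarith))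
  have hMM2' : (M' : ℝ) ≤ 2 * M := by exact_mod_cast hMM2
  have hsM' : √(M' : ℝ) ≤ 3 / 2 * √(M : ℝ) := by
    rw [Real.sqrt_le_left (by positivity)]
    rw [mul_pow, Real.sq_sqrt hMpos.le]
    linarith
  -- `ρ`
  obtain ⟨hrho1, hrho2⟩ := WAC_rho M M' t hMnat hMM hMM2
  have hq1' : (1 : ℝ) ≤ q := by exact_mod_cast hq1
  have hρh : ‖((h / (q : ℝ) ^ 2 : ℝ) : ℂ) * rhoT M M' t‖ ≤ h * ‖rhoT M M' t‖ := by
    rw [norm_mul, Complex.norm_real, Real.norm_of_nonneg (by positivity)]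
    refine mul_le_mul_of_nonneg_right ?_ (norm_nonneg _)
    exact div_le_self hh0.le (one_le_pow₀ hq1')
  have hρB : ‖((h / (q : ℝ) ^ 2 : ℝ) : ℂ) * rhoT M M' t‖ ≤ (4 * CS + 1) * (M * h) := by
    have h1 : h * ‖rhoT M M' t‖ ≤ h * M := mul_le_mul_of_nonneg_left hrho1 hh0.le
    have h2 : 0 ≤ 4 * CS * (M * h) := by positivity
    have h3 : (4 * CS + 1) * (M * h) = 4 * CS * (M * h) + h * M := by ring
    linarith
  have hJ : ∀ m ∈ Icc (-(K : ℤ)) K, |fr (-α) m| * h ≤ Real.pi := by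
    intro m hm
    have hpi := Real.pi_pos
    rw [Finset.mem_Icc] at hm
    have h1 : |(m : ℝ)| ≤ K := by
      rw [abs_le]
      constructor
      · exact_mod_cast hm.1
      · exact_mod_cast hm.2
    have h2 : |-α + 2 * Real.pi * m| ≤ 4 * Real.pi * K₂ := by
      refine (abs_add_le _ _).trans ?_
      rw [abs_neg, abs_of_nonneg hα0, abs_mul, abs_of_nonneg (by positivity : (0 : ℝ) ≤ 2 * Real.pi)]
      have h3 := mul_le_mul_of_nonneg_left (h1.trans hKK') (by positivity : (0 : ℝ) ≤ 2 * Real.pi)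
      have h4 := mul_le_mul_of_nonneg_left hK20 (by positivity : (0 : ℝ) ≤ 2 * Real.pi)
      linarith
    rw [fr, abs_div, abs_of_nonneg (by linarith : (0 : ℝ) ≤ 2 * lep), div_mul_eq_mul_div, div_le_iff₀ (by linarith)]
    calc |-α + 2 * Real.pi * m| * h ≤ 4 * Real.pi * K₂ * h := mul_le_mul_of_nonneg_right h2 hh0.le
      _ = 2 * Real.pi * (h * (2 * K₂)) := by ring
      _ = 2 * Real.pi := by rw [hhK, mul_one]
      _ ≤ Real.pi * (2 * lep) := by
          have := mul_le_mul_of_nonneg_left hlep.1 (by positivity : (0 : ℝ) ≤ 2 * Real.pi)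
          linarith
  refine ⟨fun m => ((h / (q : ℝ) ^ 2 : ℝ) : ℂ) * rhoT M M' t *
    (∫ u in (-lep)..lep, Complex.exp (-((fr (-α) (-m) * u : ℝ) : ℂ) * Complex.I)) /
      (∫ u in (0 : ℝ)..h, Complex.exp (((fr (-α) (-m) * u : ℝ) : ℂ) * Complex.I)), ?_, ?_⟩
  · intro hα m hm
    simp only []
    rw [hα, neg_zero, WAC_E0 (-m) (neg_ne_zero.2 hm), mul_zero, zero_div]
  intro c hc
  have hmem : ∀ z ∈ (FF M').filter (fun z => M < nn z ∧ (q : ℤ) ∣ z.1 - c.1 ∧ (q : ℤ) ∣ z.2 - c.2 ∧ (N8 z).sign = sg), z ∈ FF M' :=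
    fun z hz => (Finset.mem_filter.1 hz).1
  have hFd : ∀ z ∈ FF M', |yy z| ≤ lep := by
    intro z hz
    unfold FF at hz
    exact hYYB z (Finset.mem_filter.1 hz).2.1
  have habs := WAC_abs hWBE ((FF M').filter (fun z => M < nn z ∧ (q : ℤ) ∣ z.1 - c.1 ∧ (q : ℤ) ∣ z.2 - c.2 ∧ (N8 z).sign = sg))
    (fun z => nit t (nn z)) h (e ^ 2 + h) (((h / (q : ℝ) ^ 2 : ℝ) : ℂ) * rhoT M M' t) α K
    ((3 * CW + 2) * (M * h * e)) ((4 * CS + 1) * (M * h)) hh0 hh1 (by positivity) (fun z hz => hFd z (hmem z hz))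
    (by
      intro S hS c0 hS'
      refine (WAC_sumnorm t S).trans ?_
      refine (WAC_count CS hcnt M' hM'nat S c0 h hh0.le (fun z hz => hmem z (hS hz)) hS').trans ?_
      have h1 : h * M' + √(M' : ℝ) ≤ 4 * (M * h) := by
        have h2 : h * M' ≤ h * (2 * M) := mul_le_mul_of_nonneg_left hMM2' hh0.le
        have h3 : 0 ≤ √(M : ℝ) := Real.sqrt_nonneg _
        linarith
      have h2 : 0 ≤ M * h := by positivity
      calc CS * (h * M' + √(M' : ℝ)) ≤ CS * (4 * (M * h)) := mul_le_mul_of_nonneg_left h1 hCS.le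
        _ ≤ (4 * CS + 1) * (M * h) := by linarith)
    hρB
    (by
      intro u hu1 hu2 hu3
      have hWF : ∑ z ∈ (FF M').filter (fun z => M < nn z ∧ (q : ℤ) ∣ z.1 - c.1 ∧ (q : ℤ) ∣ z.2 - c.2 ∧ (N8 z).sign = sg) with
          (u < yy z ∧ yy z ≤ u + h), nit t (nn z) = WF M M' q c sg u h t := by
        rw [WF]
        refine Finset.sum_congr ?_ fun _ _ => rfl
        ext z
        simp only [Finset.mem_filter]
        tauto
      rw [hWF]
      have huh : u + h ≤ lep := by linarith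
      have hul : -lep ≤ u := by linarith
      have hMhe : 0 ≤ M * h * e := by positivity
      by_cases hsmall : |t| * h < (x : ℝ) ^ (9 * η / 10 / 100)
      · have h1 := hst M M' q c sg u h t hsg hq2 hq1 hc hul hh0.le huh hMnat hMM
        refine h1.trans ?_
        have h2 : 1 ≤ (x : ℝ) ^ (9 * η / 10 / 100) := Real.one_le_rpow hX1 (by linarith)
        have h3 : √(M' : ℝ) * (1 + |t| * h) ≤ 3 / 2 * √(M : ℝ) * (2 * (x : ℝ) ^ (9 * η / 10 / 100)) :=
          mul_le_mul hsM' (by linarith) (by positivity) (by positivity)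
        have h4 : √(M : ℝ) * (x : ℝ) ^ (9 * η / 10 / 100) ≤ M * h * e := by
          calc √(M : ℝ) * (x : ℝ) ^ (9 * η / 10 / 100) ≤ √(M : ℝ) * (x : ℝ) ^ (9 * η / 20 + -(9 * η / 10 / 400)) :=
                mul_le_mul_of_nonneg_left (Real.rpow_le_rpow_of_exponent_le hX1 (by linarith)) (Real.sqrt_nonneg _)
            _ = √(M : ℝ) * (x : ℝ) ^ (9 * η / 20) * e := by rw [Real.rpow_add hX0, he]; ring
            _ ≤ M * h * e := mul_le_mul_of_nonneg_right hsM he0.le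
        calc CW * √(M' : ℝ) * (1 + |t| * h) = CW * (√(M' : ℝ) * (1 + |t| * h)) := by ring
          _ ≤ CW * (3 / 2 * √(M : ℝ) * (2 * (x : ℝ) ^ (9 * η / 10 / 100))) := mul_le_mul_of_nonneg_left h3 hCW.le
          _ = 3 * CW * (√(M : ℝ) * (x : ℝ) ^ (9 * η / 10 / 100)) := by ring
          _ ≤ 3 * CW * (M * h * e) := mul_le_mul_of_nonneg_left h4 (by positivity)
          _ ≤ (3 * CW + 2) * (M * h * e) := by linarith
      · rw [not_lt] at hsmall
        have hsinh : ∀ v : ℝ, u ≤ v → v ≤ u + h → (x : ℝ) ^ (-(9 * η / 10 / 200)) ≤ |Real.sinh v| := by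
          intro v hv1 hv2
          rw [← he2]
          rcases hu3 with h' | h'
          · have h1 : v < -(e ^ 2) := by linarith
            have h2 : v ≤ 0 := by linarith [sq_nonneg e]
            have h3 := Real.sinh_le_self_iff.2 h2
            rw [abs_of_nonpos (by linarith)]
            linarith
          · have h1 : e ^ 2 < v := by linarith
            have h2 : 0 ≤ v := by linarith [sq_nonneg e]
            have h3 := Real.self_le_sinh_iff.2 h2
            rw [abs_of_nonneg (by linarith)]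
            linarith
        have hor : 0 ≤ u ∨ u + h ≤ 0 := by
          rcases hu3 with h' | h'
          · right; linarith [sq_nonneg e]
          · left; linarith [sq_nonneg e]
        have htt : |t| ≤ (x : ℝ) ^ (9 * (9 * η / 10) / 20) / h ^ 2 := by
          rw [le_div_iff₀ (by positivity)]
          have h1 : h ^ 2 * (K : ℝ) ^ 2 ≤ 1 := by
            have h2 : h * K ≤ 1 := by
              rw [← hhK]
              exact mul_le_mul_of_nonneg_left (by linarith) hh0.le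
            have h3 : 0 ≤ h * K := by positivity
            have h4 := pow_le_one₀ (n := 2) h3 h2
            rw [mul_pow] at h4
            exact h4
          calc |t| * h ^ 2 ≤ (K : ℝ) ^ 2 * (x : ℝ) ^ (2 * η / 5) * h ^ 2 := mul_le_mul_of_nonneg_right ht (by positivity)
            _ = h ^ 2 * (K : ℝ) ^ 2 * (x : ℝ) ^ (2 * η / 5) := by ring
            _ ≤ 1 * (x : ℝ) ^ (2 * η / 5) := mul_le_mul_of_nonneg_right h1 (by positivity)
            _ = (x : ℝ) ^ (2 * η / 5) := one_mul _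
            _ ≤ (x : ℝ) ^ (9 * (9 * η / 10) / 20) := Real.rpow_le_rpow_of_exponent_le hX1 (by linarith)
        have h1 := hlt x hx1 M M' q c sg u h t hsg hq2 hq1 hq hc hul hh0 (by linarith) huh hor hMM hMM2 hMh2 htt hsmall hsinh
        rw [← he] at h1
        have ht0 : (x : ℝ) ^ (9 * η / 10 / 100) ≤ |t| := hsmall.trans (mul_le_of_le_one_right (abs_nonneg _) (by linarith))
        have h2 : h * ‖rhoT M M' t‖ ≤ M * h * e := by
          have h3 : ‖rhoT M M' t‖ * (x : ℝ) ^ (9 * η / 10 / 100) ≤ M :=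
            (mul_le_mul_of_nonneg_left ht0 (norm_nonneg _)).trans hrho2
          have h4 : ‖rhoT M M' t‖ * (x : ℝ) ^ (9 * η / 10 / 400) ≤ M :=
            (mul_le_mul_of_nonneg_left (Real.rpow_le_rpow_of_exponent_le hX1 (by linarith)) (norm_nonneg _)).trans h3
          have h5 : (x : ℝ) ^ (9 * η / 10 / 400) * e = 1 := by
            rw [he, ← Real.rpow_add hX0, add_neg_cancel, Real.rpow_zero]
          calc h * ‖rhoT M M' t‖ = h * (‖rhoT M M' t‖ * ((x : ℝ) ^ (9 * η / 10 / 400) * e)) := by rw [h5, mul_one]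
            _ = h * e * (‖rhoT M M' t‖ * (x : ℝ) ^ (9 * η / 10 / 400)) := by ring
            _ ≤ h * e * M := mul_le_mul_of_nonneg_left h4 (by positivity)
            _ = M * h * e := by ring
        refine (norm_sub_le _ _).trans ?_
        have h3 := hρh.trans h2
        have h4 : 0 ≤ CW * (M * h * e) := by positivity
        have h5 : (3 * CW + 2) * (M * h * e) = 3 * (CW * (M * h * e)) + 2 * (M * h * e) := by ring
        linarith)
    hJ
  refine le_trans habs ?_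
  rw [← he]
  exact WAC_num M h e (3 * CW + 2) (4 * CS + 1) (e ^ 2 + h) hh0 he0 hhe rfl hD

end Pool.Agent.EU
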